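import Mathlib
import Pool.Prelude.Def_F_7546141c
import Pool.Agent.Lib.MP_62a313_nt.LD3.Defs
import Pool.Agent.Lib.MP_62a313_nt.LD3.Law2

set_option autoImplicit false

open Filter Topology
open Nbb67e70a
open Pool.Agent.Lib.MP_62a313_nt.LD3

namespace Pool.Agent.Results.MP_62a313_nt.LogDensityLaw

theorem result :
    ∃ d : ℕ → ℝ,
      (∀ r : ℕ, HasLogDensity {n : ℕ | (Nat.gcd (a n) (L n)).primeFactors.card = r} (d r)) ∧
      (Summable w → HasSum d 1) ∧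
      (¬ Summable w → ∀ r : ℕ, d r = 0) ∧
      d 0 < 2 / 5 ∧
      (∀ T : Finset ℕ, (∀ p ∈ T, p.Prime) → d 0 * (1 + ∑ p ∈ T, w p / (1 - w p)) ≤ 1) ∧
      (LinearIndependent ℚ (fun p : Nat.Primes ↦ 1 / Real.log (p : ℕ)) →
        Tendsto (fun y : ℕ ↦ ∏ p ∈ Finset.range y, (1 - w p)) atTop (𝓝 (d 0))) := by
  obtain ⟨d, hd⟩ := exists_limits
  exact ⟨d, fun r ↦ hld_ind (hd r), fun hs ↦ hasSum_d hs hd,
    fun hs r ↦ tendsto_nhds_unique (hd r) (div_zero_limit hs r), d_lt (hd 0),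
    fun T hT ↦ chung_erdos T hT (hd 0), fun hli ↦ (cond hli (hd 0)).1⟩

end Pool.Agent.Results.MP_62a313_nt.LogDensityLaw
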