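import Mathlib
import Pool.Prelude.Def_F_7546141c
import Pool.Agent.Lib.MP_62a313_nt.Arith
import Pool.Agent.Lib.MP_62a313_nt.Iterate5

set_option autoImplicit false

open Nbb67e70a
open Pool.Agent.Lib.MP_62a313_nt

namespace Pool.Agent.Results.MP_62a313_nt.ManyCommonPrimes

theorem part_one (r : ℕ) (ε : ℝ) (hε : 0 < ε) : ∃ C : ℕ, ∀ M : ℕ, 1 ≤ M → ∃ N : ℕ, M ≤ N ∧
    N ≤ C * M ∧ (((Finset.Icc 1 N).filter
      (fun n ↦ (Nat.gcd (a n) (L n)).primeFactors.card < r)).card : ℝ) ≤ ε * (N : ℝ) := by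
  classical
  obtain ⟨K₀, hK₀⟩ := exists_nat_ge (16 / ε)
  obtain ⟨X, hX1, hX2, hX3⟩ := many r (ε / 16) (by positivity) K₀
  have hX16 : 16 ≤ ε * X := by
    have h1 : 16 / ε ≤ X := le_trans hK₀ (by exact_mod_cast hX1)
    rw [div_le_iff₀ hε] at h1
    linarith
  have hXr : (1 : ℝ) ≤ X := by exact_mod_cast hX2
  obtain ⟨F, hF⟩ : ∃ F : Finset ℕ, F = (Finset.Icc 1 X).biUnion D := ⟨_, rfl⟩
  have hFp : ∀ p ∈ F, p.Prime := by
    intro p hp
    rw [hF, Finset.mem_biUnion] at hp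
    obtain ⟨m, _, hm⟩ := hp
    exact (mem_D.mp hm).1
  obtain ⟨η, hη⟩ : ∃ η : ℝ, η = min (ε / 32) (1 / 2) := ⟨_, rfl⟩
  have hη0 : 0 < η := by rw [hη]; exact lt_min (by positivity) (by norm_num)
  have hη1 : η ≤ ε / 32 := by rw [hη]; exact min_le_left _ _
  have hη2 : η ≤ 1 / 2 := by rw [hη]; exact min_le_right _ _
  obtain ⟨K, hK0, hK⟩ := scale F hFp X hη0 hη2
  have hpos16 : 0 < 16 / ε := by positivity
  obtain ⟨C, hC⟩ := exists_nat_ge (X * (K * (3 + 16 / ε)))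
  refine ⟨C, ?_⟩
  intro M hM
  have hM1 : (1 : ℝ) ≤ M := by exact_mod_cast hM
  have hy1 : 3 + 16 / ε ≤ (3 + 16 / ε) * M := by nlinarith
  have hy2 : (M : ℝ) + 1 ≤ (3 + 16 / ε) * M := by nlinarith
  obtain ⟨T, hT1, hT2, hT3⟩ := hK ((3 + 16 / ε) * M) (by linarith)
  have hT3' : (3 : ℝ) ≤ T := by linarith
  have hT16 : 16 ≤ ε * T := by
    have h1 : 16 / ε ≤ T := by linarith
    rw [div_le_iff₀ hε] at h1
    linarith
  have hXT : T ≤ X * T := by nlinarith
  obtain ⟨N, hN⟩ : ∃ N : ℕ, N = ⌊(X : ℝ) * T⌋₊ := ⟨_, rfl⟩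
  have hNlow : X * T - 1 < (N : ℝ) := by
    have := Nat.lt_floor_add_one ((X : ℝ) * T)
    rw [← hN] at this
    linarith
  have hNupp : (N : ℝ) ≤ X * T := by rw [hN]; exact Nat.floor_le (by positivity)
  refine ⟨N, ?_, ?_, ?_⟩
  · have : (M : ℝ) ≤ N := by linarith
    exact_mod_cast this
  · have h2 : X * T ≤ X * (K * ((3 + 16 / ε) * M)) := by gcongr
    have h3 : X * (K * ((3 + 16 / ε) * M)) ≤ C * M := by
      calc X * (K * ((3 + 16 / ε) * M)) = (X * (K * (3 + 16 / ε))) * M := by ring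
        _ ≤ C * M := by gcongr
    exact_mod_cast le_trans hNupp (le_trans h2 h3)
  · obtain ⟨B, hB⟩ : ∃ B : Finset ℕ, B = (Finset.Icc 1 X).filter (fun m ↦ (D m).card < r) :=
      ⟨_, rfl⟩
    rw [← hB] at hX3
    have hcover : (Finset.Icc 1 N).filter
        (fun n ↦ (Nat.gcd (a n) (L n)).primeFactors.card < r) ⊆
        (Finset.Icc 1 N).filter (fun n : ℕ ↦ ¬ ∃ m : ℕ, 1 ≤ m ∧ m ≤ X ∧ m ∉ B ∧
          m * T + η * T ≤ n ∧ (n : ℝ) < (m + 1) * T - η * T) := by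
      intro n hn
      rw [Finset.mem_filter] at hn ⊢
      obtain ⟨hn1, hn2⟩ := hn
      refine ⟨hn1, ?_⟩
      rintro ⟨m, hm1, hm2, hm3, hm4, hm5⟩
      have hDm : r ≤ (D m).card := by
        by_contra hc
        push Not at hc
        apply hm3
        rw [hB, Finset.mem_filter, Finset.mem_Icc]
        exact ⟨⟨hm1, hm2⟩, hc⟩
      have hDF : D m ⊆ F := by
        rw [hF]
        exact Finset.subset_biUnion_of_mem D (Finset.mem_Icc.mpr ⟨hm1, hm2⟩)
      have hsub : D m ⊆ (Nat.gcd (a n) (L n)).primeFactors := by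
        intro p hp
        obtain ⟨i, hi1, hi⟩ := hT3 p (hDF hp) n m hm2 hm4 hm5
        exact D_gcd hi1 hi hp
      have h1 := Finset.card_le_card hsub
      omega
    have h1 := Finset.card_le_card hcover
    have h2 := count X B (T := T) (η := η) (by linarith) hη0 hη2
    rw [← hN] at h2
    have h4 : (((Finset.Icc 1 N).filter
        (fun n ↦ (Nat.gcd (a n) (L n)).primeFactors.card < r)).card : ℝ) ≤
        T + B.card * (T + 1) + X * (2 * (η * T) + 1) := le_trans (by exact_mod_cast h1) h2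
    have hXT0 : 0 ≤ (X : ℝ) * T := by positivity
    have e1 : T ≤ ε * (X * T) / 16 := by nlinarith
    have e2 : (B.card : ℝ) * (T + 1) ≤ ε * (X * T) / 8 := by
      calc (B.card : ℝ) * (T + 1) ≤ (ε / 16 * X) * (2 * T) := by
            apply mul_le_mul hX3 (by linarith) (by linarith) (by positivity)
        _ = ε * (X * T) / 8 := by ring
    have e3 : X * (2 * (η * T)) ≤ ε * (X * T) / 16 := by
      have : η * (X * T) ≤ ε / 32 * (X * T) := by gcongr
      linarith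
    have e4 : (X : ℝ) ≤ ε * (X * T) / 16 := by nlinarith
    have e7 : X * T / 2 ≤ (N : ℝ) := by linarith
    have e8 : ε * (X * T / 2) ≤ ε * N := by gcongr
    have e9 : X * (2 * (η * T) + 1) = X * (2 * (η * T)) + X := by ring
    rw [e9] at h4
    linarith

/-- For every `r` and `ε > 0` there is `C` such that every `[M, C M]` contains an `N` for which at
most `ε N` of the integers `1 ≤ n ≤ N` have fewer than `r` distinct primes dividing `gcd (a_n, L_n)`. -/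
theorem result : ∀ r : ℕ, ∀ ε : ℝ, 0 < ε → ∃ C : ℕ, ∀ M : ℕ, 1 ≤ M → ∃ N : ℕ, M ≤ N ∧ N ≤ C * M ∧
    (((Finset.Icc 1 N).filter
      (fun n ↦ (Nat.gcd (a n) (L n)).primeFactors.card < r)).card : ℝ) ≤ ε * (N : ℝ) :=
  fun r ε hε ↦ part_one r ε hε

end Pool.Agent.Results.MP_62a313_nt.ManyCommonPrimes
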