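import Mathlib
import Pool.Prelude.Def_F_7546141c
import Pool.Agent.Lib.MP_62a313_nt.LD3.Defs
import Pool.Agent.Lib.MP_62a313_nt.LD3.Law2

set_option autoImplicit false

open Filter Topology MeasureTheory
open Nbb67e70a
open Pool.Agent.Lib.MP_62a313_nt.LD3

namespace Pool.Agent.Results.MP_62a313_nt.ProportionLaw

theorem zero_iff {μ : Measure ℝ} [IsProbabilityMeasure μ] (h : μ (Set.Icc 0 1) = 1) :
    μ {0} = 1 ↔ ∫ x, x ∂μ = 0 := by
  have hae : ∀ᵐ x ∂μ, x ∈ Set.Icc (0 : ℝ) 1 := by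
    rw [ae_iff]
    exact (prob_compl_eq_zero_iff measurableSet_Icc).mpr h
  have hint : Integrable (fun x : ℝ ↦ x) μ := by
    refine Integrable.of_bound measurable_id.aestronglyMeasurable 1 ?_
    filter_upwards [hae] with x hx
    rw [Real.norm_eq_abs, abs_of_nonneg hx.1]
    exact hx.2
  rw [integral_eq_zero_iff_of_nonneg_ae (by
    filter_upwards [hae] with x hx
    exact hx.1) hint]
  rw [← prob_compl_eq_zero_iff (measurableSet_singleton (0 : ℝ))]
  rw [Filter.EventuallyEq, ae_iff]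
  rfl

theorem result :
    (∀ N : ℕ, s 1 N =
      (((Finset.Icc 1 N).filter (fun n ↦ Nat.gcd (a n) (L n) = 1)).card : ℝ) / N) ∧
    ∃ μ : ℕ → Measure ℝ,
      (∀ r : ℕ, IsProbabilityMeasure (μ r) ∧ μ r (Set.Icc 0 1) = 1 ∧
        (∀ φ : ℝ → ℝ, Continuous φ →
          Tendsto (fun X : ℕ ↦ (∑ N ∈ Finset.Icc 1 X, φ (s r N) / N) / Real.log X) atTop
            (𝓝 (∫ x, φ x ∂(μ r)))) ∧
        (∀ ε : ℝ, 0 < ε → 0 < μ r (Set.Icc 0 ε)) ∧
        HasLogDensity {n : ℕ | (Nat.gcd (a n) (L n)).primeFactors.card < r} (∫ x, x ∂(μ r)) ∧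
        (¬ Summable w → μ r {0} = 1)) ∧
      (LinearIndependent ℚ (fun p : Nat.Primes ↦ 1 / Real.log (p : ℕ)) →
        (μ 1 {0} = 1 ↔ ¬ Summable w)) := by
  have hlt : ∀ n : ℕ, (Nat.gcd (a n) (L n)).primeFactors.card < 1 ↔ Nat.gcd (a n) (L n) = 1 := by
    intro n
    have h1 := gcd_iff n
    unfold om at h1
    rw [← h1]
    omega
  refine ⟨fun N ↦ ?_, ?_⟩
  · unfold s
    congr 3
    ext n
    rw [Finset.mem_filter, Finset.mem_filter, hlt]
  choose μ h1 h2 h3 h4 h5 using exists_law_real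
  have hmean : ∀ r, Tendsto (m (indlt r)) atTop (𝓝 (∫ x, x ∂(μ r))) := fun r ↦ law_mean r (h4 r)
  have h01 : m (indlt 1) = m (ind 0) := by
    congr 1
    funext n
    unfold indlt ind
    congr 1
    exact propext Nat.lt_one_iff
  have hd : Tendsto (m (ind 0)) atTop (𝓝 (∫ x, x ∂(μ 1))) := by
    rw [← h01]
    exact hmean 1
  refine ⟨μ, fun r ↦ ⟨h1 r, h2 r, h4 r, h5 r, hld_indlt (hmean r), fun hs ↦ ?_⟩, fun hli ↦ ?_⟩
  · have := h1 r
    rw [zero_iff (h2 r)]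
    exact tendsto_nhds_unique (hmean r) (m_indlt_div hs r)
  · have := h1 1
    rw [zero_iff (h2 1)]
    exact (cond hli hd).2

end Pool.Agent.Results.MP_62a313_nt.ProportionLaw
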