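import Mathlib
import Pool.Prelude.Def_F_7546141c
import Pool.Agent.Lib.MP_62a313_nt.Rate5

set_option autoImplicit false

open Nbb67e70a
open Pool.Agent.Lib.MP_62a313_nt

namespace Pool.Agent.Results.MP_62a313_nt.RateInfinitelyOften

/-- For infinitely many `N` at most `128 N logloglog N / loglog N` integers `1 ≤ n ≤ N` have
`gcd (a_n, L_n) = 1`. -/
theorem result : ∀ M : ℕ, ∃ N : ℕ, M ≤ N ∧
    (((Finset.Icc 1 N).filter (fun n ↦ Nat.gcd (a n) (L n) = 1)).card : ℝ) ≤
      128 * (N : ℝ) * (Real.log (Real.log (Real.log N)) / Real.log (Real.log N)) :=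
  rate

end Pool.Agent.Results.MP_62a313_nt.RateInfinitelyOften
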